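import Pool.Agent.GK.Defs

/-!
# GK-Bas: first properties
-/

namespace Pool.Agent.GK

open Pool.Agent.GJ MulAction Pool.Agent.H73.DU Pool.Agent.H73.AL Pool.Agent.LD Pool.Agent.TS

variable {V T : Finset ℕ}

theorem TC.mono {H J : Subgroup GQ} (h : TC H) (hJ : J ≤ H) : TC J :=
  fun c hc hcJ => h c hc (hJ hcJ)

/-- the complex conjugations are stable under conjugation -/
theorem isCc_conj {c : GQ} (h : IsCc c) (b : GQ) : IsCc (b * c * b⁻¹) := by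
  obtain ⟨ι, hι⟩ := h
  refine ⟨ι.comp ((b⁻¹ : GQ) : AlgebraicClosure ℚ →+* AlgebraicClosure ℚ), fun x => ?_⟩
  have h1 : ∀ y : AlgebraicClosure ℚ, (ι.comp ((b⁻¹ : GQ) : AlgebraicClosure ℚ →+* AlgebraicClosure ℚ)) y =
      ι (b⁻¹ y) := fun y => rfl
  rw [h1, h1, ← hι (b⁻¹ x)]
  congr 1
  rw [AlgEquiv.mul_apply, AlgEquiv.mul_apply, ← AlgEquiv.mul_apply b⁻¹ b, inv_mul_cancel]
  rfl

theorem TC.cj {H : Subgroup GQ} (h : TC H) (b : GQ) : TC (cj b H) := by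
  intro c hc hcb
  rw [mem_cj_conj] at hcb
  exact h _ (isCc_conj hc b) hcb

/-- the kernel of a character which is `-1` at the complex conjugations -/
theorem tc_kr {H J : Subgroup GQ} {χ : GQ → ℤˣ} (hχ : Mulp H χ)
    (hneg : ∀ c : GQ, IsCc c → c ∈ H → χ c = -1) (hJ : J ≤ H) : TC (kr J χ) := by
  intro c hc hcJ
  obtain ⟨h1, h2⟩ := (mem_kr (hχ.mono hJ)).1 hcJ
  rw [hneg c hc (hJ h1)] at h2
  exact absurd h2 (by decide)

theorem EY_mono {i n n' B B' : ℕ} (hn : n' ∣ n) (hB : B ≤ B') :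
    EY V T i n B ≤ EY V T i n' B' := by
  refine AddSubgroup.closure_mono ?_
  rintro f (⟨H, h1, h2, h3, h4⟩ | ⟨H, h1, h2, h3, h4⟩ | h)
  · exact Or.inl ⟨H, h1, hn.trans h2, h3.trans hB, h4⟩
  · exact Or.inr (Or.inl ⟨H, h1, hn.trans h2, h3.trans hB, h4⟩)
  · exact Or.inr (Or.inr h)

theorem mem_Ey {i n B : ℕ} {H : Subgroup GQ} (h : Ey V T i H) (hn : n ∣ H.index)
    (hB : H.index ≤ B) : pc H ∈ EY V T i n B :=
  AddSubgroup.subset_closure (Or.inl ⟨H, h, hn, hB, rfl⟩)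

theorem mem_two {i n B : ℕ} {H : Subgroup GQ} (h : Ci V T i H) (hn : n ∣ H.index)
    (hB : H.index ≤ B) : (2 : ℤ) • pc H ∈ EY V T i n B :=
  AddSubgroup.subset_closure (Or.inr (Or.inl ⟨H, h, hn, hB, rfl⟩))

theorem mem_ZT {i n B : ℕ} {f : Subgroup GQ → ℤ} (h : ZT T f) : f ∈ EY V T i n B :=
  AddSubgroup.subset_closure (Or.inr (Or.inr h))

theorem mem_zero {i n B : ℕ} {f : Subgroup GQ → ℤ} (h : ∀ U ∈ famT T, f U = 0) :
    f ∈ EY V T i n B := mem_ZT (ZT_of_famT h)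

/-- membership up to functions vanishing on `famT T` -/
theorem mem_congr {i n B : ℕ} {f g : Subgroup GQ → ℤ} (h : ∀ U ∈ famT T, f U = g U)
    (hg : g ∈ EY V T i n B) : f ∈ EY V T i n B := by
  have : f = g + (f - g) := by abel
  rw [this]
  refine AddSubgroup.add_mem _ hg (mem_zero fun U hU => ?_)
  rw [Pi.sub_apply, h U hU, sub_self]

end Pool.Agent.GK
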