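import Pool.Agent.GJ.Bas

/-!
# GK-Defs: the span with totally complex deep subgroups

As `ES` (GJ/Defs), but the subgroups of level `i + 1` of the first kind have to be totally complex.
-/

namespace Pool.Agent.GK

open Pool.Agent.GJ MulAction Pool.Agent.H73.DU Pool.Agent.H73.AL Pool.Agent.LD Pool.Agent.TS

/-- no complex conjugation is in `H` -/
def TC (H : Subgroup GQ) : Prop := ∀ c : GQ, IsCc c → c ∉ H

/-- the exact subgroups of level `i`, totally complex if they are of level `i + 1` -/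
def Ey (V T : Finset ℕ) (i : ℕ) (H : Subgroup GQ) : Prop :=
  Ci V T i H ∧ ((Ci V T (i + 1) H ∧ TC H) ∨ TR H ∨ ∃ H' : Subgroup GQ, Ci V T i H' ∧ H ≤ H' ∧
    H.relIndex H' = 2)

/-- the span of the exact subgroups, of the doubles, and of `ZT` -/
def EY (V T : Finset ℕ) (i n B : ℕ) : AddSubgroup (Subgroup GQ → ℤ) :=
  AddSubgroup.closure {f | (∃ H : Subgroup GQ, Ey V T i H ∧ n ∣ H.index ∧ H.index ≤ B ∧ f = pc H) ∨
    (∃ H : Subgroup GQ, Ci V T i H ∧ n ∣ H.index ∧ H.index ≤ B ∧ f = (2 : ℤ) • pc H) ∨ ZT T f}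

end Pool.Agent.GK
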