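import Pool.Agent.GK.Bas
import Pool.Agent.GJ.N.Glue
import Pool.Agent.GJ.D.MemC
import Pool.Agent.THF.L.AB

/-!
# GK-Neg: characters which are `-1` at the complex conjugations

`κ` is the character of a negative rational number which is a local square at the primes of `V` and `T`.
-/

namespace Pool.Agent.GK

open Pool.Agent.GJ MulAction Pool.Agent.H73.DU Pool.Agent.H73.AL Pool.Agent.LD Pool.Agent.TS

open NumberField IsDedekindDomain Pool.Agent.HWR Pool.Agent.QD Pool.Agent.QD.In Pool.Agent.MD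

private theorem Neg_top (φ0 : ℚ →+* AlgebraicClosure ℚ) : stb φ0 = ⊤ := by
  rw [eq_top_iff]
  intro g _
  change g • φ0 = φ0
  exact Subsingleton.elim _ _

theorem exists_neg (V : Finset ℕ) {T : Finset ℕ} (h2 : 2 ∈ T) :
    ∃ κ : GQ → ℤˣ, IsChr ⊤ κ ∧ (∀ P : Pl, P.p ∈ V ∪ T → ∀ h ∈ P.D, κ h = 1) ∧
      ∀ c : GQ, IsCc c → κ c = -1 := by
  classical
  obtain ⟨T', hT'⟩ : ∃ T' : Finset ℕ, T' = (V ∪ T).filter Nat.Prime := ⟨_, rfl⟩
  obtain ⟨d, hd0, hd⟩ := Pool.Agent.THF.exists_d (T := T')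
    (fun p hp => by rw [hT', Finset.mem_filter] at hp; exact hp.2)
    (by rw [hT', Finset.mem_filter]; exact ⟨Finset.mem_union_right _ h2, Nat.prime_two⟩)
  obtain ⟨s, κ, hκ⟩ := kum_of (algebraMap ℚ (AlgebraicClosure ℚ)) d
  have htop := Neg_top (algebraMap ℚ (AlgebraicClosure ℚ))
  refine ⟨κ, htop ▸ kum_chr hκ, fun P hP h hh => ?_, fun c hc => ?_⟩
  · obtain ⟨w, hw, hwp⟩ := exists_pl (algebraMap ℚ (AlgebraicClosure ℚ)) P
    have h1 : ¬ Away ℚ T' w := by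
      unfold Away
      push Not
      exact ⟨P.p, by rw [hT', Finset.mem_filter]; exact ⟨hP, P.hp.out⟩, hwp⟩
    have h3 := fix_pl hκ P hw (hd w h1)
    exact h3 h hh (by rw [htop]; exact Subgroup.mem_top h)
  · rcases Int.units_eq_one_or (κ c) with h1 | h1
    · exfalso
      obtain ⟨ι, hι⟩ := hc
      have h3 := hκ.2 c (by rw [htop]; exact Subgroup.mem_top c)
      rw [h1] at h3
      have h4 : c s = s := by
        rw [h3]
        push_cast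
        ring
      have h5 : starRingEnd ℂ (ι s) = ι s := by rw [← hι, h4]
      obtain ⟨r, hr⟩ := Complex.conj_eq_iff_real.1 h5
      have h6 : ι (s ^ 2) = (((d : ℚ) : ℝ) : ℂ) := by
        rw [hκ.1]
        simp
      rw [map_pow, hr] at h6
      have h7 : r ^ 2 = ((d : ℚ) : ℝ) := by exact_mod_cast h6
      have h8 : ((d : ℚ) : ℝ) < 0 := by exact_mod_cast hd0
      nlinarith [sq_nonneg r]
    · exact h1

/-- pairs with prescribed values exist; very good, `-1` at the complex conjugations -/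
theorem exists_pair_neg {V T : Finset ℕ} (hTp : ∀ p ∈ T, p.Prime) (h2 : 2 ∈ T) {i : ℕ}
    {H : Subgroup GQ} (hH : Ci V T i H) {P : Pl} (hP : Pin V T P) {χ χ' : GQ → ℤˣ}
    (hχ : IsChr H χ) (hχ' : IsChr H χ') (h1 : NtAt H P χ) (h3 : NtAt H P χ') :
    ∃ η η' : GQ → ℤˣ, Pair V T i H P η η' ∧ EqAt H P η χ ∧ EqAt H P η' χ' ∧ VGood V T H η ∧
      VGood V T H η' ∧ (∀ c : GQ, IsCc c → c ∈ H → η c = -1) ∧
      ∀ c : GQ, IsCc c → c ∈ H → η' c = -1 := by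
  obtain ⟨η, η', hp, ha, ha', hv, hv', hc, hc'⟩ := exists_pair hTp h2 hH hP hχ hχ' h1 h3
  obtain ⟨κ, hκ, hκP, hκc⟩ := exists_neg V h2
  have hκH : IsChr H κ := hκ.mono le_top hH.op
  have hPV : ∀ {Q : Pl}, Pin V T Q → Q.p ∈ V ∪ T := fun hQ => Finset.mem_union_left _ hQ.1
  have hPT : ∀ {Q : Pl}, PinT T Q → Q.p ∈ V ∪ T := fun hQ => Finset.mem_union_right _ hQ
  have heq : ∀ (θ : GQ → ℤˣ) {Q : Pl}, Pin V T Q → EqAt H Q (θ * κ) θ := by
    intro θ Q hQ x hx _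
    rw [Pi.mul_apply, hκP Q (hPV hQ) x hx, mul_one]
  have hnt : ∀ (θ : GQ → ℤˣ) {Q : Pl}, Pin V T Q → NtAt H Q θ → NtAt H Q (θ * κ) := by
    rintro θ Q hQ ⟨x, hx, hxH, h⟩
    refine ⟨x, hx, hxH, ?_⟩
    rw [heq θ hQ x hx hxH]
    exact h
  have hGT : ∀ {θ : GQ → ℤˣ}, GT V T i H θ → GT V T i H (θ * κ) := by
    intro θ hθ
    refine ⟨hθ.chr.mul hκH, fun Q hQ x hx hxH => ?_, fun Q hQ hc => hnt θ hQ (hθ.good Q hQ hc)⟩
    rw [Pi.mul_apply, hθ.ttr Q hQ x hx hxH, hκP Q (hPT hQ) x hx, mul_one]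
  refine ⟨η * κ, η' * κ, ⟨hGT hp.l, hGT hp.r, fun Q hQ hc hne => ?_⟩, ?_, ?_, ?_, ?_, ?_, ?_⟩
  · exact ((heq η hQ).trans (hp.eq Q hQ hc hne)).trans (heq η' hQ).symm
  · exact (heq η hP).trans ha
  · exact (heq η' hP).trans ha'
  · exact fun Q hQ => hnt η hQ (hv Q hQ)
  · exact fun Q hQ => hnt η' hQ (hv' Q hQ)
  · intro c hc1 hcH
    rw [Pi.mul_apply, hc c hc1 hcH, hκc c hc1, one_mul]
  · intro c hc1 hcH
    rw [Pi.mul_apply, hc' c hc1 hcH, hκc c hc1, one_mul]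

end Pool.Agent.GK
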